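import Pool.Agent.Work.MP_51e72e_nt.SysFinal

set_option autoImplicit false

open Classical in
theorem Pool.Agent.Results.MP_51e72e_nt.AllSystems.result :
    ∀ D : ℕ, 2 ≤ D → ∃ δ : ℝ, 0 < δ ∧
      ∀ F : Finset (Polynomial ℤ),
        (∀ f ∈ F, Irreducible f ∧ 0 < f.natDegree ∧ -f ∉ F) →
        ∑ f ∈ F, f.natDegree = D →
        ∃ C : ℝ,
          Filter.Tendsto
            (fun y : ℕ => ∏ p ∈ (Finset.range (y + 1)).filter Nat.Prime,
              (1 - (((Finset.range p).filter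
                    (fun n : ℕ => (p : ℤ) ∣ ∏ f ∈ F, f.eval (n : ℤ))).card : ℝ) / (p : ℝ)) /
                (1 - 1 / (p : ℝ)) ^ F.card)
            Filter.atTop (nhds C) ∧
          ∀ ε : ℝ, 0 < ε → ∀ᶠ N : ℕ in Filter.atTop,
            (((Finset.Icc 1 N).filter
                (fun n : ℕ => ∀ f ∈ F, (f.eval (n : ℤ)).natAbs.Prime)).card : ℝ) *
              (∏ f ∈ F, Real.log |((f.eval (N : ℤ) : ℤ) : ℝ)|) / (N : ℝ)
            ≤ (1 - δ) *
              (2 ^ F.card * (F.card.factorial : ℝ) * ∏ f ∈ F, (f.natDegree : ℝ)) * C + ε := by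
  intro D hD
  obtain ⟨δ, h0, h⟩ := Pool.Agent.Work.MP_51e72e_nt.Sys.sys_all D hD
  refine ⟨δ, h0, fun F h1 h2 => ?_⟩
  obtain ⟨C, h3, h4, -⟩ := h F h1 h2
  exact ⟨C, h3, h4⟩
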