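import Pool.Agent.Work.MP_51e72e_nt.TEFinal

open Finset Filter Topology Real

namespace Pool.Agent.Results.MP_51e72e_nt.AlmostPrimeLocalLaw

/-- Joint local law, at every scale, for the numbers of distinct prime factors of two linear
forms, with the singular series that interpolates the Bateman–Horn constant. -/
theorem result (a₁ b₁ a₂ b₂ : ℤ) (ha₁ : a₁ ≠ 0) (ha₂ : a₂ ≠ 0) (h₁ : IsCoprime a₁ b₁)
    (h₂ : IsCoprime a₂ b₂) (hd : a₁ * b₂ ≠ a₂ * b₁) :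
    ∃ S : ℝ → ℝ → ℝ,
      (∀ x₁ x₂ : ℝ, 0 ≤ x₁ → 0 ≤ x₂ →
        Tendsto (fun y : ℕ => ∏ p ∈ (Icc 1 y).filter Nat.Prime,
          (∑ n ∈ range p, (if (p : ℤ) ∣ a₁ * n + b₁ then x₁ else 1) *
              (if (p : ℤ) ∣ a₂ * n + b₂ then x₂ else 1)) / p /
            ((1 + (x₁ - 1) / p) * (1 + (x₂ - 1) / p))) atTop (𝓝 (S x₁ x₂))) ∧
      ContinuousOn (fun x : ℝ × ℝ => S x.1 x.2) (Set.Ici 0 ×ˢ Set.Ici 0) ∧
      ∀ A ε : ℝ, 0 < ε → ∃ K : ℕ, ∀ᶠ N : ℕ in atTop, ∀ k₁ k₂ : ℕ, K ≤ k₁ → K ≤ k₂ →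
        (k₁ : ℝ) ≤ A * log (log N) → (k₂ : ℝ) ≤ A * log (log N) →
        |(((Icc 1 N).filter fun n : ℕ => (a₁ * n + b₁).natAbs.primeFactors.card = k₁ ∧
              (a₂ * n + b₂).natAbs.primeFactors.card = k₂).card : ℝ) * N
            - S (k₁ / log (log N)) (k₂ / log (log N)) *
              ((((Icc 1 N).filter fun n : ℕ => n.primeFactors.card = k₁).card : ℝ) *
                ((Icc 1 N).filter fun n : ℕ => n.primeFactors.card = k₂).card)|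
          ≤ ε * ((((Icc 1 N).filter fun n : ℕ => n.primeFactors.card = k₁).card : ℝ) *
              ((Icc 1 N).filter fun n : ℕ => n.primeFactors.card = k₂).card) := by
  obtain ⟨S, h1, h2, h3⟩ := Pool.Agent.Work.MP_51e72e_nt.TE.joint_law' ha₁ ha₂ h₁ h₂ hd
  refine ⟨S, fun x₁ x₂ p₁ p₂ => ?_, h2, h3⟩
  have := h1 x₁ x₂ p₁ p₂
  simp only [Pool.Agent.Work.MP_51e72e_nt.TE.PS_zero, Nat.floor_natCast] at this
  exact this

end Pool.Agent.Results.MP_51e72e_nt.AlmostPrimeLocalLaw
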