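import Pool.Agent.Work.MP_51e72e_nt.PV.Fin

set_option autoImplicit false

open Classical in
theorem Pool.Agent.Results.MP_51e72e_nt.PolyAverage.result :
    ∀ F₀ : Finset (ℤ × ℤ), (∀ f ∈ F₀, 1 ≤ f.1 ∧ IsCoprime f.1 f.2) → F₀.card ≤ 1 →
      ∀ (k : ℕ) (d : Fin k → ℕ), (∀ i, 1 ≤ d i) → ∀ (A K : ℕ) (ε η : ℝ), 0 < ε → 0 < η →
        ∃ E : ℕ, ∀ᶠ N : ℕ in Filter.atTop, ∀ (H : Fin k → ℕ) (y : ℕ∞),
          (∀ i, (N : ℝ) ^ ε ≤ (H i : ℝ) ∧ H i ≤ N ^ K ∧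
            (2 ≤ d i → (N : ℝ) * Real.log (N : ℝ) ^ E ≤ (H i : ℝ))) →
          ((⌈Real.exp (√(Real.log (N : ℝ)))⌉₊ : ℕ) : ℕ∞) ≤ y →
          ((∃ i, 2 ≤ d i) → ∀ i, y ^ 3 ≤ (H i : ℕ∞)) →
          (((Fintype.piFinset fun i : Fin k => Fintype.piFinset fun j : Fin (d i + 1) =>
                if j = Fin.last (d i) then Finset.Icc (1 : ℤ) (H i : ℤ)
                else Finset.Icc (-(H i : ℤ)) (H i : ℤ)).filter
              (fun c : (i : Fin k) → Fin (d i + 1) → ℤ => ¬ ∃ C : ℝ,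
                Filter.Tendsto
                  (fun x : ℕ => ∏ p ∈ (Finset.range (x + 1)).filter
                      (fun p : ℕ => p.Prime ∧ (p : ℕ∞) ≤ y),
                    (1 - (((Finset.range p).filter (fun n : ℕ => (p : ℤ) ∣
                          (∏ f ∈ F₀, (f.1 * (n : ℤ) + f.2)) *
                            ∏ i, ∑ j, c i j * (n : ℤ) ^ (j : ℕ))).card : ℝ) / (p : ℝ)) /
                      (1 - 1 / (p : ℝ)) ^ (F₀.card + k))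
                  Filter.atTop (nhds C) ∧
                |(((Finset.Icc 1 N).filter (fun n : ℕ =>
                      (∀ f ∈ F₀, (f.1 * (n : ℤ) + f.2).natAbs.Prime) ∧
                        ∀ i, (∑ j, c i j * (n : ℤ) ^ (j : ℕ)).natAbs.Prime)).card : ℝ) *
                    ((∏ f ∈ F₀, Real.log |((f.1 * (N : ℤ) + f.2 : ℤ) : ℝ)|) *
                      ∏ i, Real.log |((∑ j, c i j * (N : ℤ) ^ (j : ℕ) : ℤ) : ℝ)|) / (N : ℝ)
                  - C| ≤ η)).card : ℝ)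
            ≤ (∏ i, (H i : ℝ) ^ (d i + 1)) / Real.log (N : ℝ) ^ A := by
  intro F₀ h₀ h₁ k d hd A K ε η hε hη
  obtain ⟨E, hE⟩ := Pool.Agent.Work.MP_51e72e_nt.PV.final F₀ h₀ h₁ d hd A K hε hη
  refine ⟨E, hE.mono fun N h H y a b c => le_of_eq_of_le ?_ (h H y a b c)⟩
  simp only [Pool.Agent.Work.MP_51e72e_nt.PV.Fin_PP', Pool.Agent.Work.MP_51e72e_nt.PV.Fin_cz]
  rfl
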