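import Pool.Agent.Work.MP_51e72e_nt.SL.F

set_option autoImplicit false

open Classical in
theorem Pool.Agent.Results.MP_51e72e_nt.SiftedLargestPrime.result :
    ∀ D : ℕ, ∃ c : ℝ, 0 < c ∧ ∀ F : Finset (Polynomial ℤ),
      (∀ g ∈ F, Irreducible g ∧ 0 < g.natDegree) → ∑ g ∈ F, g.natDegree = D →
      ∀ f ∈ F, 2 ≤ f.natDegree → ∀ᶠ N : ℕ in Filter.atTop, ∀ z : ℕ, (z : ℝ) ≤ (N : ℝ) ^ c →
        c * N * ∏ p ∈ (Finset.range (z + 1)).filter Nat.Prime,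
            (1 - (((Finset.range p).filter fun n : ℕ =>
              (p : ℤ) ∣ ∏ g ∈ F, g.eval (n : ℤ)).card : ℝ) / p) ≤
          (((Finset.Icc 1 N).filter fun n : ℕ =>
            (∀ g ∈ F, ∀ p : ℕ, p.Prime → p ≤ z → ¬ (p : ℤ) ∣ g.eval (n : ℤ)) ∧
            ∃ p : ℕ, p.Prime ∧ (p : ℤ) ∣ f.eval (n : ℤ) ∧ (N : ℝ) ^ (1 + c) < p).card : ℝ) :=
  fun D => Pool.Agent.Work.MP_51e72e_nt.SL.sifted_largest D
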